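import Pool.Agent.H13.DEV.Targets

/-!
# RTH: a root gives a homomorphism
-/

set_option autoImplicit false

open Polynomial NumberField IsDedekindDomain Pool.Agent.H32.QC Pool.Agent.H34.N6
  Pool.Agent.H13.DEV

namespace Pool.Agent.H50.N6E

theorem pf_RTH : T_RTH := by
  intro k L _ _ _ P e hP hG F _ ι e' he'
  let _ : Algebra k F := ι.toAlgebra
  have hint : IsIntegral k e := by
    by_contra h
    have h1 := minpoly.eq_zero h
    rw [hG.mp] at h1
    exact hP.ne_zero h1
  have hev : aeval e' (minpoly k e) = 0 := by
    rw [hG.mp]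
    exact he'
  let pb := IntermediateField.adjoin.powerBasis hint
  have hgen : pb.gen = IntermediateField.AdjoinSimple.gen k e := rfl
  have hmp : minpoly k pb.gen = minpoly k e := by
    rw [hgen]
    exact IntermediateField.minpoly_gen k e
  let f0 : IntermediateField.adjoin k {e} →ₐ[k] F := pb.lift e' (by rw [hmp]; exact hev)
  let g0 : L ≃ₐ[k] IntermediateField.adjoin k {e} :=
    (IntermediateField.topEquiv (F := k) (E := L)).symm.trans
      (IntermediateField.equivOfEq hG.adj.symm)
  have hge : g0 e = IntermediateField.AdjoinSimple.gen k e := by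
    apply Subtype.ext
    rfl
  refine ⟨(f0.comp g0.toAlgHom).toRingHom, ?_, ?_⟩
  · change f0 (g0 e) = e'
    rw [hge, ← hgen]
    exact pb.lift_gen e' _
  · intro x
    exact (f0.comp g0.toAlgHom).commutes x

end Pool.Agent.H50.N6E
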